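import Mathlib

/-!
# The decision problem: do two homomorphisms between free groups agree on a nontrivial element?

A word over `a_0^{±1}, …, a_{m-1}^{±1}` is a list of pairs of an index and a sign, as in Mathlib's
`FreeGroup`; `FreeGroup.IsReduced` says that it is freely reduced.
-/

set_option autoImplicit false

namespace Pool.Agent.Y555.PCP

/-- The homomorphism given by a tuple of words. -/
def toHom {n m : ℕ} (u : Fin n → List (Fin m × Bool)) : FreeGroup (Fin n) →* FreeGroup (Fin m) :=
  FreeGroup.lift fun i => FreeGroup.mk (u i)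

/-- There is an algorithm which, given two homomorphisms from the free group of rank `n` to the
free group of rank `m` by tuples of reduced words, decides whether they agree on some nontrivial
element. -/
def HasAlgorithm (n m : ℕ) : Prop :=
  ∃ f : (Fin n → List (Fin m × Bool)) × (Fin n → List (Fin m × Bool)) →. Bool, Partrec f ∧
    ∀ u v : Fin n → List (Fin m × Bool),
      (∀ i, FreeGroup.IsReduced (u i)) → (∀ i, FreeGroup.IsReduced (v i)) →
        ∃ b ∈ f (u, v), (b = true ↔ ∃ x : FreeGroup (Fin n), x ≠ 1 ∧ toHom u x = toHom v x)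

/-- The same with the first homomorphism fixed. -/
def HasAlgorithmFor {n m : ℕ} (u : Fin n → List (Fin m × Bool)) : Prop :=
  ∃ f : (Fin n → List (Fin m × Bool)) →. Bool, Partrec f ∧
    ∀ v : Fin n → List (Fin m × Bool), (∀ i, FreeGroup.IsReduced (v i)) →
      ∃ b ∈ f v, (b = true ↔ ∃ x : FreeGroup (Fin n), x ≠ 1 ∧ toHom u x = toHom v x)

end Pool.Agent.Y555.PCP
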