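import Mathlib

/-!
# Two rays in the tree of a free group at bounded distance

If `of (a (t-1)) ⋯ of (a 0) * w * (of (b (t-1)) ⋯ of (b 0))⁻¹` has bounded length for all `t`
then, up to a shift, the sequences `a` and `b` agree from some point on.
-/

set_option autoImplicit false

namespace Pool.Agent.Y555.PCP

open FreeGroup

variable {α : Type*} [DecidableEq α]

/-- `of (a (t-1)) * ⋯ * of (a 0)` -/
def up (a : ℕ → α) : ℕ → FreeGroup α
  | 0 => 1
  | t + 1 => of (a t) * up a t

theorem toWord_of_mul (c : α) (y : FreeGroup α) (h : ∀ tl, toWord y ≠ (c, false) :: tl) :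
    toWord (of c * y) = (c, true) :: toWord y := by
  rw [toWord_mul, toWord_of]
  show reduce ((c, true) :: toWord y) = _
  rw [reduce.cons, reduce_toWord]
  cases hy : toWord y with
  | nil => rfl
  | cons hd tl =>
    simp only []
    rw [if_neg]
    rintro ⟨h1, h2⟩
    apply h tl
    rw [hy]
    obtain ⟨x, b⟩ := hd
    simp only at h1 h2
    subst h1
    cases b with
    | false => rfl
    | true => simp at h2

theorem toWord_of_mul' (c : α) (y : FreeGroup α) (tl : List (α × Bool))
    (h : toWord y = (c, false) :: tl) : toWord (of c * y) = tl := by
  rw [toWord_mul, toWord_of]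
  show reduce ((c, true) :: toWord y) = _
  rw [reduce.cons, reduce_toWord, h]
  simp

theorem toWord_up (a : ℕ → α) (t : ℕ) :
    (toWord (up a t)).reverse = (List.range t).map fun i => (a i, true) := by
  induction t with
  | zero => simp [up]
  | succ t ih =>
    have h1 : toWord (up a (t + 1)) = (a t, true) :: toWord (up a t) := by
      refine toWord_of_mul _ _ fun tl h => ?_
      have h2 : (a t, false) ∈ (toWord (up a t)).reverse := by
        rw [List.mem_reverse, h]
        exact List.mem_cons_self ..
      rw [ih] at h2
      simp at h2
    rw [h1, List.reverse_cons, ih, List.range_succ, List.map_append]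
    rfl

theorem up_mul_dichotomy (a : ℕ → α) (w : FreeGroup α) (t : ℕ) :
    (∃ c tl, toWord (up a t * w) = (c, true) :: tl) ∨
      (toWord (up a t * w)).length + t ≤ FreeGroup.norm w := by
  induction t with
  | zero =>
    right
    simp [up, FreeGroup.norm]
  | succ t ih =>
    have h0 : up a (t + 1) * w = of (a t) * (up a t * w) := by
      rw [up, mul_assoc]
    rw [h0]
    by_cases hc : ∃ tl, toWord (up a t * w) = (a t, false) :: tl
    · obtain ⟨tl, htl⟩ := hc
      right
      rw [toWord_of_mul' _ _ _ htl]
      rcases ih with ⟨c, tl', h⟩ | h
      · rw [htl] at h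
        simp at h
      · rw [htl, List.length_cons] at h
        omega
    · left
      push Not at hc
      exact ⟨a t, _, toWord_of_mul _ _ hc⟩

theorem up_mul_succ (a : ℕ → α) (w : FreeGroup α) (t : ℕ) (ht : FreeGroup.norm w ≤ t) :
    toWord (up a (t + 1) * w) = (a t, true) :: toWord (up a t * w) := by
  have h0 : up a (t + 1) * w = of (a t) * (up a t * w) := by
    rw [up, mul_assoc]
  rw [h0]
  refine toWord_of_mul _ _ fun tl htl => ?_
  rcases up_mul_dichotomy a w t with ⟨c, tl', h⟩ | h
  · rw [htl] at h
    simp at h
  · rw [htl, List.length_cons] at h
    omega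

theorem up_mul_add (a : ℕ → α) (w : FreeGroup α) (K : ℕ) (hK : FreeGroup.norm w ≤ K) (n : ℕ) :
    (toWord (up a (K + n) * w)).reverse =
      (toWord (up a K * w)).reverse ++ (List.range n).map fun i => (a (K + i), true) := by
  induction n with
  | zero => simp
  | succ n ih =>
    rw [← add_assoc, up_mul_succ a w (K + n) (by omega), List.reverse_cons, ih, List.range_succ,
      List.map_append, List.append_assoc]
    rfl

theorem toWord_mk_mul (L : List (α × Bool)) (x : FreeGroup α) :
    ∃ Z, toWord (mk L * x) = Z ++ (toWord x).drop L.length := by
  induction L with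
  | nil => exact ⟨[], by
      have : (mk [] : FreeGroup α) = 1 := rfl
      simp [this]⟩
  | cons l L ih =>
    obtain ⟨Z, hZ⟩ := ih
    have h0 : mk (l :: L) * x = mk [l] * (mk L * x) := by
      rw [← mul_assoc]
      rfl
    have h1 : toWord (mk (l :: L) * x) =
        List.casesOn (toWord (mk L * x)) [l] fun hd tl =>
          if l.1 = hd.1 ∧ l.2 = !hd.2 then tl else l :: hd :: tl := by
      rw [h0, toWord_mul, toWord_mk, reduce_singleton]
      show reduce (l :: toWord (mk L * x)) = _
      rw [reduce.cons, reduce_toWord]
    have hdrop : (toWord x).drop (L.length + 1) = ((toWord x).drop L.length).drop 1 := by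
      rw [List.drop_drop]
    rw [h1, hZ, List.length_cons, hdrop]
    generalize (toWord x).drop L.length = S
    cases Z with
    | nil =>
      cases S with
      | nil => exact ⟨[l], by simp⟩
      | cons s S =>
        simp only [List.nil_append, List.drop_succ_cons, List.drop_zero]
        split_ifs
        · exact ⟨[], by simp⟩
        · exact ⟨[l, s], by simp⟩
    | cons z Z =>
      simp only [List.cons_append]
      split_ifs
      · refine ⟨Z ++ S.take 1, ?_⟩
        rw [List.append_assoc, List.take_append_drop]
      · refine ⟨l :: z :: (Z ++ S.take 1), ?_⟩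
        simp only [List.cons_append, List.append_assoc, List.take_append_drop]

/-- Two rays at bounded distance agree up to a shift. -/
theorem ray (a b : ℕ → α) (w : FreeGroup α) (K : ℕ)
    (h : ∀ t, FreeGroup.norm (up a t * w * (up b t)⁻¹) ≤ K) :
    ∃ j, up a K * w = up b j ∧ ∀ n, a (K + n) = b (j + n) := by
  have hw : FreeGroup.norm w ≤ K := by
    have := h 0
    simpa [up] using this
  set X := (toWord (up a K * w)).reverse with hX
  -- every initial segment of `b` is an initial segment
  have key : ∀ n, (List.range n).map (fun i => (b i, true)) <+:
      X ++ (List.range n).map fun i => (a (K + i), true) := by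
    intro n
    rw [← up_mul_add a w K hw n]
    set r := up a (K + n) * w * (up b (K + n))⁻¹ with hr
    have h1 : up a (K + n) * w = r * up b (K + n) := by
      rw [hr]
      simp
    obtain ⟨Z, hZ⟩ := toWord_mk_mul (toWord r) (up b (K + n))
    rw [mk_toWord] at hZ
    rw [h1, hZ, List.reverse_append]
    have hS := toWord_up b (K + n)
    set S := toWord (up b (K + n)) with hSdef
    have hlen : S.length = K + n := by
      have := congrArg List.length hS
      simpa using this
    have hrl : (toWord r).length ≤ K := h (K + n)
    have h2 : (S.drop (toWord r).length).reverse <+: S.reverse :=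
      List.reverse_prefix.2 (List.drop_suffix _ _)
    have h3 : (List.range n).map (fun i => (b i, true)) <+: S.reverse := by
      rw [hS, Nat.add_comm K n, List.range_add, List.map_append]
      exact List.prefix_append _ _
    refine (List.prefix_of_prefix_length_le h3 h2 ?_).trans (List.prefix_append _ _)
    simp only [List.length_map, List.length_range, List.length_reverse, List.length_drop]
    omega
  set j := X.length with hj
  have hXj : X = (List.range j).map fun i => (b i, true) := by
    have h1 := key j
    have h2 : X <+: X ++ (List.range j).map fun i => (a (K + i), true) := List.prefix_append _ _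
    exact ((List.prefix_of_prefix_length_le h1 h2 (by simp [hj])).eq_of_length (by simp [hj])).symm
  refine ⟨j, ?_, fun n => ?_⟩
  · apply toWord_injective
    apply List.reverse_injective
    rw [toWord_up, ← hXj]
  · have h1 := key (j + n + 1)
    obtain ⟨T, hT⟩ := h1
    have h2 := congrArg (fun L => L[j + n]?) hT

    rw [List.getElem?_append_left (by simp), List.getElem?_append_right (by omega)] at h2
    simp only [List.getElem?_map, ← hj, Nat.add_sub_cancel_left] at h2
    rw [List.getElem?_range (by omega), List.getElem?_range (by omega)] at h2
    simpa using h2.symm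

end Pool.Agent.Y555.PCP
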