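import Mathlib
import Pool.Agent.Y555.PCP.Ray

/-!
# The free group with one marked letter as a semidirect product

`FreeGroup (Option Γ)`, with marked letter `none`, is the semidirect product of the normal closure
of the marked letter, which is free on the elements `u # u⁻¹` for `u ∈ FreeGroup Γ`, by
`FreeGroup Γ`.
-/

set_option autoImplicit false

namespace Pool.Agent.Y555.PCP

open FreeGroup hiding map_mul map_one map_inv map_pure norm
open SemidirectProduct

variable {Γ : Type*}

/-- the inclusion of `FreeGroup Γ` -/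
def io : FreeGroup Γ →* FreeGroup (Option Γ) := FreeGroup.map some

/-- the marked letter -/
def mk0 : FreeGroup (Option Γ) := of none

theorem io_injective : Function.Injective (io : FreeGroup Γ →* FreeGroup (Option Γ)) :=
  FreeGroup.map_injective (Option.some_injective Γ)

@[simp] theorem io_of (a : Γ) : io (of a) = (of (some a) : FreeGroup (Option Γ)) := by
  simp [io]

/-- left translation of the basis -/
def tr : FreeGroup Γ →* MulAut (FreeGroup (FreeGroup Γ)) where
  toFun v := freeGroupCongr (Equiv.mulLeft v)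
  map_one' := by
    ext x
    simp [freeGroupCongr]
  map_mul' v w := by
    ext x
    show FreeGroup.map _ x = FreeGroup.map _ (FreeGroup.map _ x)
    rw [FreeGroup.map.comp]
    congr 2
    funext y
    simp [mul_assoc]

theorem tr_apply (v : FreeGroup Γ) (w : FreeGroup (FreeGroup Γ)) :
    tr v w = FreeGroup.map (fun x => v * x) w := rfl

@[simp] theorem tr_of (v u : FreeGroup Γ) : tr v (of u) = of (v * u) := by
  simp [tr_apply]

theorem tr_symm_apply (v : FreeGroup Γ) (w : FreeGroup (FreeGroup Γ)) :
    (MulEquiv.symm (tr v)) w = tr v⁻¹ w := by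
  rw [map_inv]
  rfl

/-- the semidirect product -/
abbrev S (Γ : Type*) := FreeGroup (FreeGroup Γ) ⋊[tr] FreeGroup Γ

/-- the isomorphism -/
def toS : FreeGroup (Option Γ) →* S Γ :=
  FreeGroup.lift fun o => match o with
    | none => inl (of 1)
    | some a => inr (of a)

@[simp] theorem toS_mk0 : toS (mk0 : FreeGroup (Option Γ)) = inl (of 1) := by
  simp [toS, mk0]

@[simp] theorem toS_io (u : FreeGroup Γ) : toS (io u) = inr u := by
  have : (toS.comp io : FreeGroup Γ →* S Γ) = inr := by
    ext a
    · simp [toS]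
    · simp [toS]
  exact DFunLike.congr_fun this u

/-- the inverse -/
def ofS : S Γ →* FreeGroup (Option Γ) :=
  SemidirectProduct.lift (FreeGroup.lift fun u => io u * mk0 * (io u)⁻¹) io (by
    intro g
    ext u
    simp [mul_assoc])

theorem ofS_toS (g : FreeGroup (Option Γ)) : ofS (toS g) = g := by
  have : (ofS.comp toS : FreeGroup (Option Γ) →* _) = MonoidHom.id _ := by
    ext o
    cases o with
    | none => simp [ofS, toS, mk0]
    | some a => simp [ofS, toS]
  exact DFunLike.congr_fun this g

theorem toS_injective : Function.Injective (toS : FreeGroup (Option Γ) →* S Γ) :=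
  Function.LeftInverse.injective ofS_toS

/-- the number of marked letters is at most `k` in some expression of `g` -/
inductive Cnt : ℕ → FreeGroup (Option Γ) → Prop
  | base (u : FreeGroup Γ) : Cnt 0 (io u)
  | step (k : ℕ) (g : FreeGroup (Option Γ)) (u : FreeGroup Γ) (b : Bool) (h : Cnt k g) :
      Cnt (k + 1) (io u * (cond b mk0 mk0⁻¹) * g)

theorem Cnt.io_mul {k : ℕ} {g : FreeGroup (Option Γ)} (h : Cnt k g) (v : FreeGroup Γ) :
    Cnt k (io v * g) := by
  cases h with
  | base u => rw [← map_mul]; exact Cnt.base _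
  | step k g u b h =>
    rw [← mul_assoc, ← mul_assoc, ← map_mul]
    exact Cnt.step k g _ b h

theorem Cnt.mul {k l : ℕ} {g h : FreeGroup (Option Γ)} (hg : Cnt k g) (hh : Cnt l h) :
    Cnt (k + l) (g * h) := by
  induction hg with
  | base u => rw [zero_add]; exact hh.io_mul u
  | step k g u b _ ih =>
    rw [mul_assoc]
    have : k + 1 + l = (k + l) + 1 := by ring
    rw [this]
    exact Cnt.step _ _ u b ih

theorem cnt_letter (b : Bool) : Cnt 1 (cond b mk0 mk0⁻¹ : FreeGroup (Option Γ)) := by
  have := Cnt.step 0 (io (1 : FreeGroup Γ)) 1 b (Cnt.base 1)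
  simpa using this

section Dec

variable [DecidableEq (FreeGroup Γ)]

theorem norm_tr (v : FreeGroup Γ) (w : FreeGroup (FreeGroup Γ)) :
    FreeGroup.norm (tr v w) = FreeGroup.norm w := by
  have key : ∀ (v : FreeGroup Γ) (w : FreeGroup (FreeGroup Γ)),
      FreeGroup.norm (tr v w) ≤ FreeGroup.norm w := by
    intro v w
    have h1 : tr v w = mk ((toWord w).map fun x => (v * x.1, x.2)) := by
      conv_lhs => rw [← mk_toWord (x := w)]
      rw [tr_apply, FreeGroup.map.mk]
    rw [h1]
    refine norm_mk_le.trans ?_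
    simp [FreeGroup.norm]
  refine le_antisymm (key v w) ?_
  have h1 := key v⁻¹ (tr v w)
  have h2 : tr v⁻¹ (tr v w) = w := by
    rw [← MulAut.mul_apply, ← map_mul]
    simp
  rwa [h2] at h1

/-- the number of marked letters -/
def nn (g : FreeGroup (Option Γ)) : ℕ := FreeGroup.norm (toS g).left

theorem left_letter (b : Bool) :
    FreeGroup.norm (toS (cond b mk0 mk0⁻¹ : FreeGroup (Option Γ))).left = 1 ∧
      (toS (cond b mk0 mk0⁻¹ : FreeGroup (Option Γ))).right = 1 := by
  cases b
  · simp only [cond_false, map_inv, toS_mk0, inv_left, inv_right, left_inl, right_inl]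
    simp
  · simp

theorem nn_mul_le (g h : FreeGroup (Option Γ)) : nn (g * h) ≤ nn g + nn h := by
  unfold nn
  rw [map_mul, mul_left]
  refine (FreeGroup.norm_mul_le _ _).trans ?_
  rw [norm_tr]

theorem nn_le {k : ℕ} {g : FreeGroup (Option Γ)} (h : Cnt k g) : nn g ≤ k := by
  induction h with
  | base u => simp [nn]
  | step k g u b _ ih =>
    refine (nn_mul_le _ _).trans ?_
    have h1 : nn (io u * (cond b mk0 mk0⁻¹)) ≤ 1 := by
      refine (nn_mul_le _ _).trans ?_
      have h2 : nn (io u) = 0 := by simp [nn]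
      rw [h2, zero_add]
      exact (left_letter b).1.le
    omega

omit [DecidableEq (FreeGroup Γ)] in
theorem cnt_list (L : List (FreeGroup Γ × Bool)) :
    Cnt L.length (FreeGroup.lift (fun u => io u * mk0 * (io u)⁻¹) (FreeGroup.mk L)) := by
  induction L with
  | nil =>
    have := Cnt.base (1 : FreeGroup Γ)
    simpa using this
  | cons l L ih =>
    obtain ⟨u, b⟩ := l
    have h1 : FreeGroup.lift (fun u => io u * mk0 * (io u)⁻¹) (FreeGroup.mk ((u, b) :: L)) =
        io u * (cond b mk0 mk0⁻¹) * (io u⁻¹ * FreeGroup.lift (fun u => io u * mk0 * (io u)⁻¹)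
          (FreeGroup.mk L)) := by
      rw [FreeGroup.lift_mk, FreeGroup.lift_mk, List.map_cons, List.prod_cons]
      cases b <;> simp [mul_assoc]
    rw [h1, List.length_cons]
    exact Cnt.step _ _ _ _ (ih.io_mul _)

theorem cnt_nn (g : FreeGroup (Option Γ)) : Cnt (nn g) g := by
  have h1 : g = FreeGroup.lift (fun u => io u * mk0 * (io u)⁻¹)
      (FreeGroup.mk (FreeGroup.toWord (toS g).left)) * io (toS g).right := by
    conv_lhs => rw [← ofS_toS g, ← inl_left_mul_inr_right (toS g)]
    rw [map_mul, FreeGroup.mk_toWord]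
    simp [ofS]
  have h2 := (cnt_list (FreeGroup.toWord (toS g).left)).mul (Cnt.base (toS g).right)
  rw [← h1, add_zero] at h2
  exact h2

/-- products of the `# u_t` -/
def gg (u : ℕ → FreeGroup Γ) : ℕ → FreeGroup (Option Γ)
  | 0 => 1
  | t + 1 => mk0 * io (u t) * gg u t

/-- products of the `u_t` -/
def uu (u : ℕ → FreeGroup Γ) : ℕ → FreeGroup Γ
  | 0 => 1
  | t + 1 => u t * uu u t

theorem toS_gg_inv (u : ℕ → FreeGroup Γ) (t : ℕ) :
    (toS (gg u t)⁻¹).left = (up (fun i => (uu u (i + 1))⁻¹) t)⁻¹ ∧
      (toS (gg u t)⁻¹).right = (uu u t)⁻¹ := by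
  induction t with
  | zero => simp [gg, up, uu]
  | succ t ih =>
    have h1 : (gg u (t + 1))⁻¹ = (gg u t)⁻¹ * ((io (u t))⁻¹ * mk0⁻¹) := by
      simp [gg, mul_assoc]
    have h2 : toS ((io (u t))⁻¹ * mk0⁻¹) = (inr (u t))⁻¹ * (inl (of 1))⁻¹ := by
      rw [map_mul, map_inv toS, map_inv toS, toS_io, toS_mk0]
    rw [h1, map_mul, mul_left, mul_right, ih.1, ih.2, h2]
    constructor
    · rw [up, mul_inv_rev]
      congr 1
      rw [mul_left, inv_left, inv_left, inv_right, left_inr, right_inr, left_inl, right_inl]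
      simp only [inv_one, one_mul, map_inv, MulAut.inv_apply, map_one]
      rw [tr_symm_apply, tr_symm_apply, MulAut.one_apply, tr_of, tr_of, mul_one, uu, mul_inv_rev]
    · simp [uu]

omit [DecidableEq (FreeGroup Γ)] in
theorem tr_up (v : FreeGroup Γ) (a : ℕ → FreeGroup Γ) (t : ℕ) :
    tr v (up a t) = up (fun i => v * a i) t := by
  induction t with
  | zero => simp [up]
  | succ t ih => simp [up, ih]

/-- If the conjugates of `h` by `gg u t` have boundedly many marked letters and `u` is injective,
then `h = 1`. -/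
theorem eq_one_of_bounded (u : ℕ → FreeGroup Γ) (hu : Function.Injective u) (K : ℕ)
    (h : FreeGroup (Option Γ)) (hb : ∀ t, nn (gg u t * h * (gg u t)⁻¹) ≤ K) : h = 1 := by
  set a : ℕ → FreeGroup Γ := fun i => (uu u (i + 1))⁻¹ with ha
  set w0 := (toS h).left with hw0
  set v0 := (toS h).right with hv0
  have key : ∀ t, FreeGroup.norm (up a t * w0 * (up (fun i => v0 * a i) t)⁻¹) ≤ K := by
    intro t
    have h1 : toS h * toS (gg u t)⁻¹ = toS (gg u t)⁻¹ * toS (gg u t * h * (gg u t)⁻¹) := by
      rw [← map_mul, ← map_mul]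
      congr 1
      group
    have h2 := congrArg SemidirectProduct.left h1
    rw [mul_left, mul_left, (toS_gg_inv u t).1, (toS_gg_inv u t).2, map_inv, ← hw0, ← hv0,
      tr_up] at h2
    have h3 : up a t * w0 * (up (fun i => v0 * a i) t)⁻¹ =
        tr (uu u t)⁻¹ (toS (gg u t * h * (gg u t)⁻¹)).left := by
      rw [mul_assoc, h2, ← mul_assoc]
      simp [ha]
    rw [h3, norm_tr]
    exact hb t
  obtain ⟨j, hj1, hj2⟩ := ray a (fun i => v0 * a i) w0 K key
  have hu1 : ∀ i, a (i + 1) = a i * (u (i + 1))⁻¹ := by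
    intro i
    simp [ha, uu]
  have hKj : K = j := by
    have h1 := hj2 0
    have h2 := hj2 1
    simp only [add_zero] at h1
    rw [hu1 K, hu1 j, h1, mul_assoc] at h2
    have h3 := mul_left_cancel (mul_left_cancel h2)
    have h4 := hu (inv_injective h3)
    omega
  subst hKj
  have hv : v0 = 1 := by
    have h1 := hj2 0
    simp only [add_zero] at h1
    exact (mul_eq_right.1 h1.symm)
  have hw : w0 = 1 := by
    rw [hv] at hj1
    simp only [one_mul] at hj1
    exact mul_eq_left.1 hj1
  apply toS_injective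
  rw [map_one]
  ext
  · simp [← hw0, hw]
  · simp [← hv0, hv]

end Dec

end Pool.Agent.Y555.PCP
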