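import Mathlib
import Pool.Agent.Y555.PCP.Sem

/-!
# Bases of finite index subgroups, and embeddings between free groups
-/

set_option autoImplicit false

namespace Pool.Agent.Y555.PCP

open FreeGroup hiding map_mul map_one map_inv map_pure norm
open SemidirectProduct

/-- The rank of a finitely generated free group is finite. -/
theorem finite_of_fg (X : Type*) [Group.FG (FreeGroup X)] : Finite X := by
  classical
  obtain ⟨β, hβ, φ, hφ⟩ := (Group.fg_iff_exists_freeGroup_hom_surjective_finite
    (G := FreeGroup X)).1 inferInstance
  let g : Multiplicative (ZMod 2) := Multiplicative.ofAdd 1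
  have hg : g ≠ 1 := by decide
  let L : X → (FreeGroup X →* Multiplicative (ZMod 2)) := fun x =>
    FreeGroup.lift (fun y => if y = x then g else 1)
  let T : X → (β → Multiplicative (ZMod 2)) := fun x i => L x (φ (of i))
  refine Finite.of_injective T ?_
  intro x x' h
  have h1 : (L x).comp φ = (L x').comp φ := by
    ext i : 1
    exact congrFun h i
  obtain ⟨z, hz⟩ := hφ (of x)
  have h3 := DFunLike.congr_fun h1 z
  simp only [MonoidHom.comp_apply, hz, L, lift_apply_of, if_true] at h3
  by_contra hne
  rw [if_neg hne] at h3
  exact hg h3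

/-- A finite index subgroup of a free group of finite rank is the image of an injective
homomorphism from a free group of finite rank. -/
theorem exists_basis {Λ : Type} [Finite Λ] (H : Subgroup (FreeGroup Λ)) [H.FiniteIndex] :
    ∃ (n : ℕ) (β : FreeGroup (Fin n) →* FreeGroup Λ), Function.Injective β ∧ β.range = H := by
  obtain ⟨ι, ⟨b⟩⟩ := IsFreeGroup.nonempty_basis (G := H)
  have h1 : Group.FG H := H.fg_of_index_ne_zero
  have h2 : Group.FG (FreeGroup ι) := Group.fg_of_surjective
    (f := (b.repr : H →* FreeGroup ι)) b.repr.surjective
  have h3 : Finite ι := finite_of_fg ι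
  obtain ⟨n, ⟨e⟩⟩ := Finite.exists_equiv_fin ι
  let E : FreeGroup (Fin n) ≃* H := (freeGroupCongr e).symm.trans b.repr.symm
  refine ⟨n, H.subtype.comp (E : FreeGroup (Fin n) →* H), ?_, ?_⟩
  · exact H.subtype_injective.comp E.injective
  · rw [MonoidHom.range_comp, MonoidHom.range_eq_top.2 E.surjective, ← MonoidHom.range_eq_map,
      Subgroup.range_subtype]

theorem toS_ofS {Γ : Type*} (s : S Γ) : toS (ofS s) = s := by
  have : (toS.comp ofS : S Γ →* S Γ) = MonoidHom.id _ := by
    apply SemidirectProduct.hom_ext
    · ext u : 1
      simp only [MonoidHom.comp_apply, MonoidHom.id_apply, ofS, lift_inl, lift_apply_of, map_mul,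
        map_inv, toS_io, toS_mk0]
      rw [← map_inv, ← inl_aut, tr_of, mul_one]
    · ext u : 1
      simp only [MonoidHom.comp_apply, MonoidHom.id_apply, ofS, lift_inr, toS_io]
  exact DFunLike.congr_fun this s

/-- Every free group of finite rank embeds into every free group of rank at least two. -/
theorem exists_embedding (Λ : Type) [Finite Λ] (m : ℕ) (hm : 2 ≤ m) :
    ∃ ι : FreeGroup Λ →* FreeGroup (Fin m), Function.Injective ι := by
  obtain ⟨n, ⟨e⟩⟩ := Finite.exists_equiv_fin Λ
  let f1 : Λ → FreeGroup Unit := fun l => of () ^ (e l : ℕ)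
  have h1 : Function.Injective f1 := by
    intro a b h
    have h2 := congrArg (FreeGroup.lift (fun _ => Multiplicative.ofAdd (1 : ℤ))) h
    simp only [f1, map_pow, lift_apply_of, ← ofAdd_nsmul] at h2
    have h3 := Multiplicative.ofAdd.injective h2
    simp only [nsmul_eq_mul, mul_one, Nat.cast_inj] at h3
    exact e.injective (Fin.ext h3)
  let f2 : Option Unit → Fin m := fun o => match o with
    | none => ⟨0, by omega⟩
    | some _ => ⟨1, by omega⟩
  have h2 : Function.Injective f2 := by
    intro a b h
    match a, b with
    | none, none => rfl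
    | some (), some () => rfl
    | none, some () => simp [f2] at h
    | some (), none => simp [f2] at h
  let F : FreeGroup (FreeGroup Unit) →* FreeGroup (Option Unit) := ofS.comp inl
  have hF : Function.Injective F :=
    (Function.LeftInverse.injective toS_ofS).comp inl_injective
  exact ⟨((FreeGroup.map f2).comp F).comp (FreeGroup.map f1),
    ((FreeGroup.map_injective h2).comp hF).comp (FreeGroup.map_injective h1)⟩

end Pool.Agent.Y555.PCP
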