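import Mathlib
import Pool.Agent.Y555.PCP.Sem

/-!
# Permutation automata with output and fixed points of virtual endomorphisms
-/

set_option autoImplicit false

namespace Pool.Agent.Y555.PCP

open FreeGroup hiding map_mul map_one map_inv map_pure norm

variable {Γ Q : Type*}

/-- A permutation automaton over the letters `Option Γ` with output; the marked letter `none`
outputs itself. -/
structure Aut (Γ Q : Type*) where
  δ : Option Γ → Equiv.Perm Q
  o : Γ → Q → FreeGroup Γ

namespace Aut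

variable (A : Aut Γ Q)

/-- the output of a letter -/
def out : Option Γ → Q → FreeGroup (Option Γ)
  | none, _ => mk0
  | some a, q => io (A.o a q)

/-- the permutation of `Q × F` attached to a letter -/
def τ (l : Option Γ) : Equiv.Perm (Q × FreeGroup (Option Γ)) where
  toFun x := (A.δ l x.1, A.out l x.1 * x.2)
  invFun x := ((A.δ l).symm x.1, (A.out l ((A.δ l).symm x.1))⁻¹ * x.2)
  left_inv x := by simp
  right_inv x := by simp

/-- the action on `Q × F` -/
def Θ : FreeGroup (Option Γ) →* Equiv.Perm (Q × FreeGroup (Option Γ)) := FreeGroup.lift A.τ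

/-- the action on the states -/
def act (g : FreeGroup (Option Γ)) (q : Q) : Q := (A.Θ g (q, 1)).1

/-- the output -/
def cc (g : FreeGroup (Option Γ)) (q : Q) : FreeGroup (Option Γ) := (A.Θ g (q, 1)).2

theorem Θ_right (g : FreeGroup (Option Γ)) : ∀ (q : Q) (t s : FreeGroup (Option Γ)),
    A.Θ g (q, t * s) = ((A.Θ g (q, t)).1, (A.Θ g (q, t)).2 * s) := by
  induction g using FreeGroup.induction_on with
  | C1 => intro q t s; simp
  | of l =>
    intro q t s
    simp [Θ, τ, mul_assoc]
  | inv_of l _ =>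
    intro q t s
    rw [map_inv]
    show (A.Θ (of l)).symm _ = _
    simp only [Θ, lift_apply_of]
    show ((A.δ l).symm q, _ * (t * s)) = ((A.δ l).symm q, (_ * t) * s)
    rw [mul_assoc]
  | mul x y hx hy =>
    intro q t s
    rw [map_mul, Equiv.Perm.mul_apply, hy, Equiv.Perm.mul_apply, hx]

theorem Θ_apply (g : FreeGroup (Option Γ)) (q : Q) (t : FreeGroup (Option Γ)) :
    A.Θ g (q, t) = (A.act g q, A.cc g q * t) := by
  have := A.Θ_right g q 1 t
  rw [one_mul] at this
  exact this

@[simp] theorem act_one (q : Q) : A.act 1 q = q := by simp [act]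

@[simp] theorem cc_one (q : Q) : A.cc 1 q = 1 := by simp [cc]

theorem Θ_mul_one (g h : FreeGroup (Option Γ)) (q : Q) :
    A.Θ (g * h) (q, 1) = (A.act g (A.act h q), A.cc g (A.act h q) * A.cc h q) := by
  have h1 : A.Θ (g * h) (q, 1) = A.Θ g (A.Θ h (q, 1)) := by rw [map_mul]; rfl
  have h2 : A.Θ h (q, 1) = (A.act h q, A.cc h q) := rfl
  rw [h1, h2, A.Θ_apply g]

theorem act_mul (g h : FreeGroup (Option Γ)) (q : Q) :
    A.act (g * h) q = A.act g (A.act h q) := by
  have := A.Θ_mul_one g h q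
  show (A.Θ (g * h) (q, 1)).1 = _
  rw [this]

theorem cc_mul (g h : FreeGroup (Option Γ)) (q : Q) :
    A.cc (g * h) q = A.cc g (A.act h q) * A.cc h q := by
  have := A.Θ_mul_one g h q
  show (A.Θ (g * h) (q, 1)).2 = _
  rw [this]

theorem act_inv_act (g : FreeGroup (Option Γ)) (q : Q) : A.act g⁻¹ (A.act g q) = q := by
  rw [← act_mul, inv_mul_cancel, act_one]

theorem cc_inv_act (g : FreeGroup (Option Γ)) (q : Q) :
    A.cc g⁻¹ (A.act g q) = (A.cc g q)⁻¹ := by
  have := A.cc_mul g⁻¹ g q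
  rw [inv_mul_cancel, cc_one] at this
  exact eq_inv_of_mul_eq_one_left this.symm

theorem cc_inv (g : FreeGroup (Option Γ)) (q : Q) :
    A.cc g⁻¹ q = (A.cc g (A.act g⁻¹ q))⁻¹ := by
  have h := A.cc_inv_act g (A.act g⁻¹ q)
  have h2 : A.act g (A.act g⁻¹ q) = q := by
    rw [← act_mul, mul_inv_cancel, act_one]
  rwa [h2] at h

@[simp] theorem act_of (l : Option Γ) (q : Q) : A.act (of l) q = A.δ l q := by
  simp [act, Θ, τ]

@[simp] theorem cc_of (l : Option Γ) (q : Q) : A.cc (of l) q = A.out l q := by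
  simp [cc, Θ, τ]

theorem cc_mk0 (q : Q) : A.cc mk0 q = mk0 := by
  simp [mk0, out]

/-- the action as a homomorphism -/
def σ : FreeGroup (Option Γ) →* Equiv.Perm Q := FreeGroup.lift A.δ

theorem σ_apply (g : FreeGroup (Option Γ)) : ∀ q, A.σ g q = A.act g q := by
  induction g using FreeGroup.induction_on with
  | C1 => intro q; simp
  | of l => intro q; simp [σ]
  | inv_of l h =>
    intro q
    rw [map_inv]
    have h2 : A.σ (of l) (A.act (of l)⁻¹ q) = q := by
      rw [h, ← act_mul, mul_inv_cancel, act_one]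
    conv_lhs => rw [← h2]
    simp
  | mul x y hx hy =>
    intro q
    rw [map_mul, Equiv.Perm.mul_apply, hy, hx, act_mul]

theorem exists_cc_io (u : FreeGroup Γ) : ∀ q, ∃ v, A.cc (io u) q = io v := by
  induction u using FreeGroup.induction_on with
  | C1 => intro q; exact ⟨1, by simp⟩
  | of a => intro q; exact ⟨A.o a q, by simp [out]⟩
  | inv_of a _ =>
    intro q
    rw [map_inv, cc_inv, io_of, cc_of]
    exact ⟨(A.o a _)⁻¹, by rw [map_inv]; rfl⟩
  | mul x y hx hy =>
    intro q
    obtain ⟨v, hv⟩ := hy q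
    obtain ⟨w, hw⟩ := hx (A.act (io y) q)
    exact ⟨w * v, by rw [map_mul, cc_mul, hv, hw, map_mul]⟩

theorem cc_letter (b : Bool) (q : Q) :
    A.cc (cond b mk0 mk0⁻¹) q = (cond b mk0 mk0⁻¹ : FreeGroup (Option Γ)) := by
  cases b
  · simp only [cond_false]
    rw [cc_inv, cc_mk0]
  · simp only [cond_true]
    exact cc_mk0 A q

theorem cnt_cc {k : ℕ} {g : FreeGroup (Option Γ)} (h : Cnt k g) : ∀ q, Cnt k (A.cc g q) := by
  induction h with
  | base u =>
    intro q
    obtain ⟨v, hv⟩ := A.exists_cc_io u q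
    rw [hv]
    exact Cnt.base v
  | step k g u b _ ih =>
    intro q
    rw [cc_mul, cc_mul, cc_letter]
    obtain ⟨v, hv⟩ := A.exists_cc_io u (A.act (cond b mk0 mk0⁻¹) (A.act g q))
    rw [hv]
    exact Cnt.step _ _ _ _ (ih q)

theorem nn_cc_le [DecidableEq (FreeGroup Γ)] (g : FreeGroup (Option Γ)) (q : Q) :
    nn (A.cc g q) ≤ nn g := nn_le (A.cnt_cc (cnt_nn g) q)

/-- a trajectory of the automaton -/
structure Traj (qs : ℕ → Q) (u : ℕ → FreeGroup Γ) : Prop where
  act_eq : ∀ t, A.act (mk0 * io (u t)) (qs t) = qs (t + 1)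
  cc_eq : ∀ t, A.cc (io (u t)) (qs t) = io (u (t + 1))

variable {A}

theorem Traj.cc_s {qs : ℕ → Q} {u : ℕ → FreeGroup Γ} (T : A.Traj qs u) (t : ℕ) :
    A.cc (mk0 * io (u t)) (qs t) = mk0 * io (u (t + 1)) := by
  rw [cc_mul, cc_mk0, T.cc_eq]

/-- If the contents are pairwise different then the equation has only the trivial solution. -/
theorem Traj.eq_one {qs : ℕ → Q} {u : ℕ → FreeGroup Γ} (T : A.Traj qs u)
    (hu : Function.Injective u) (h : FreeGroup (Option Γ)) (h1 : A.act h (qs 0) = qs 0)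
    (h2 : A.cc h (qs 0) = mk0 * io (u 0) * h * (mk0 * io (u 0))⁻¹) : h = 1 := by
  classical
  have key : ∀ t, A.act (gg u t * h * (gg u t)⁻¹) (qs t) = qs t ∧
      A.cc (gg u t * h * (gg u t)⁻¹) (qs t) = gg u (t + 1) * h * (gg u (t + 1))⁻¹ := by
    intro t
    induction t with
    | zero =>
      refine ⟨by simpa [gg] using h1, ?_⟩
      simpa [gg] using h2
    | succ t ih =>
      obtain ⟨ih1, ih2⟩ := ih
      set s := mk0 * io (u t) with hs
      set k := gg u t * h * (gg u t)⁻¹ with hk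
      have e1 : gg u (t + 1) * h * (gg u (t + 1))⁻¹ = s * k * s⁻¹ := by
        simp [gg, hs, hk, mul_assoc]
      have e2 : A.act s (qs t) = qs (t + 1) := T.act_eq t
      have e3 : A.act s⁻¹ (qs (t + 1)) = qs t := by rw [← e2, act_inv_act]
      have e4 : A.cc s⁻¹ (qs (t + 1)) = (mk0 * io (u (t + 1)))⁻¹ := by
        rw [← e2, cc_inv_act, T.cc_s]
      rw [e1]
      constructor
      · rw [act_mul, act_mul, e3, ih1, e2]
      · rw [cc_mul, cc_mul, e3, e4, ih1, ih2, T.cc_s, e1]
        simp [gg, hs, hk, mul_assoc]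
  refine eq_one_of_bounded u hu (nn h) h fun t => ?_
  induction t with
  | zero => simp [gg]
  | succ t ih =>
    rw [← (key t).2]
    exact (A.nn_cc_le _ _).trans ih

theorem Traj.gg_eq {qs : ℕ → Q} {u : ℕ → FreeGroup Γ} (T : A.Traj qs u) (t : ℕ) :
    A.act (gg u t) (qs 0) = qs t ∧
      A.cc (gg u t) (qs 0) = mk0 * io (u t) * gg u t * (mk0 * io (u 0))⁻¹ := by
  induction t with
  | zero => simp [gg]
  | succ t ih =>
    constructor
    · rw [gg, act_mul, ih.1, T.act_eq]
    · rw [gg, cc_mul, ih.1, ih.2, T.cc_s]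
      simp [mul_assoc]

/-- the sum of the exponents of the marked letter -/
def expo : FreeGroup (Option Γ) →* Multiplicative ℤ :=
  FreeGroup.lift fun l => match l with
    | none => Multiplicative.ofAdd 1
    | some _ => 1

theorem expo_io (v : FreeGroup Γ) : expo (io v) = 1 := by
  have : (expo.comp io : FreeGroup Γ →* Multiplicative ℤ) = 1 := by
    ext a
    simp [expo]
  exact DFunLike.congr_fun this v

theorem expo_gg (u : ℕ → FreeGroup Γ) (t : ℕ) :
    expo (gg u t) = Multiplicative.ofAdd (t : ℤ) := by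
  induction t with
  | zero => simp [gg]
  | succ t ih =>
    rw [gg, map_mul, map_mul, expo_io, ih]
    have : (expo (mk0 : FreeGroup (Option Γ))) = Multiplicative.ofAdd 1 := by simp [expo, mk0]
    rw [this, mul_one, ← ofAdd_add]
    congr 1
    push_cast
    ring

/-- If the trajectory is eventually periodic then the equation has a nontrivial solution. -/
theorem Traj.exists_solution {qs : ℕ → Q} {u : ℕ → FreeGroup Γ} (T : A.Traj qs u)
    {a b : ℕ} (hab : a < b) (hq : qs a = qs b) (hu : u a = u b) :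
    ∃ h : FreeGroup (Option Γ), h ≠ 1 ∧ A.act h (qs 0) = qs 0 ∧
      A.cc h (qs 0) = mk0 * io (u 0) * h * (mk0 * io (u 0))⁻¹ := by
  refine ⟨(gg u a)⁻¹ * gg u b, ?_, ?_, ?_⟩
  · intro h
    have h1 := congrArg expo h
    rw [map_mul, map_inv, expo_gg, expo_gg, map_one, ← ofAdd_neg, ← ofAdd_add] at h1
    have h2 : (-(a : ℤ) + b) = 0 := by
      have := congrArg Multiplicative.toAdd h1
      simpa using this
    omega
  · rw [act_mul, (T.gg_eq b).1, ← hq, ← (T.gg_eq a).1, act_inv_act]
  · rw [cc_mul, (T.gg_eq b).1, (T.gg_eq b).2, ← hq, ← hu]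
    have h1 : A.cc (gg u a)⁻¹ (qs a) = (A.cc (gg u a) (qs 0))⁻¹ := by
      conv_lhs => rw [← (T.gg_eq a).1]
      exact cc_inv_act A _ _
    rw [h1, (T.gg_eq a).2]
    simp [mul_assoc]

end Aut

end Pool.Agent.Y555.PCP
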