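import Mathlib
import Pool.Agent.Y555.PCP.Aut
import Pool.Agent.Helper707.Num

/-!
# A permutation automaton simulating a system of affine maps on residue classes
-/

set_option autoImplicit false

namespace Pool.Agent.Y555.PCP

open FreeGroup hiding map_mul map_one map_inv map_pure norm
open Pool.Agent.Helper707.Rel (Sys)

/-- the letters, apart from the marked one -/
inductive Lt (m : ℕ)
  | x | D | y | R (r : ZMod m)
  deriving DecidableEq

/-- the states -/
inductive St (m : ℕ)
  | A (i : ZMod m) | A' (r : ZMod m) | B (r i : ZMod m) | G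
  deriving DecidableEq

instance (m : ℕ) [NeZero m] : Finite (Lt m) := by
  have : Function.Surjective (fun o : Option (Option (Option (ZMod m))) => match o with
    | none => Lt.x
    | some none => Lt.D
    | some (some none) => Lt.y
    | some (some (some r)) => Lt.R r) := by
    intro l
    cases l with
    | x => exact ⟨none, rfl⟩
    | D => exact ⟨some none, rfl⟩
    | y => exact ⟨some (some none), rfl⟩
    | R r => exact ⟨some (some (some r)), rfl⟩
  exact Finite.of_surjective _ this

instance (m : ℕ) [NeZero m] : Finite (St m) := by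
  have : Function.Surjective (fun o : Option (ZMod m ⊕ ZMod m ⊕ (ZMod m × ZMod m)) => match o with
    | none => St.G
    | some (.inl i) => St.A i
    | some (.inr (.inl i)) => St.A' i
    | some (.inr (.inr (r, i))) => St.B r i) := by
    intro l
    cases l with
    | A i => exact ⟨some (.inl i), rfl⟩
    | A' i => exact ⟨some (.inr (.inl i)), rfl⟩
    | B r i => exact ⟨some (.inr (.inr (r, i))), rfl⟩
    | G => exact ⟨none, rfl⟩
  exact Finite.of_surjective _ this

namespace Mach

variable (Y : Sys)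

/-- the multiplier used by the machine -/
def ma (N : ℕ) : ℕ := if Y.H (N % Y.m) then Y.m else Y.a (N % Y.m)

/-- the offset used by the machine -/
def me (N : ℕ) : ℕ := if Y.H (N % Y.m) then N % Y.m else Y.e (N % Y.m)

/-- the increment of the clock -/
def mk (N : ℕ) : ℕ := if Y.H (N % Y.m) then 0 else 1

/-- the moves of the states -/
def δ : Option (Lt Y.m) → Equiv.Perm (St Y.m)
  | none => Function.Involutive.toPerm (fun q => match q with
      | .A i => if i = 0 then .G else .A i
      | .A' r => .B r 0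
      | .B r i => if i = 0 then .A' r else .B r i
      | .G => .A 0) (by
        intro q
        cases q with
        | A i => by_cases h : i = 0 <;> simp [h]
        | A' r => simp
        | B r i => by_cases h : i = 0 <;> simp [h]
        | G => simp)
  | some .x =>
    { toFun := fun q => match q with
        | .A i => .A (i + 1)
        | .A' r => .A' r
        | .B r i => .B r (i + 1)
        | .G => .G
      invFun := fun q => match q with
        | .A i => .A (i - 1)
        | .A' r => .A' r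
        | .B r i => .B r (i - 1)
        | .G => .G
      left_inv := by intro q; cases q <;> simp
      right_inv := by intro q; cases q <;> simp }
  | some .D => Function.Involutive.toPerm (fun q => match q with
      | .A i => .A' i
      | .A' r => .A r
      | .B r i => .B r i
      | .G => .G) (by intro q; cases q <;> rfl)
  | some .y => 1
  | some (.R r) => Equiv.swap (.B r r) .G

/-- the outputs -/
def o : Lt Y.m → St Y.m → FreeGroup (Lt Y.m)
  | .x, .A _ => of .x
  | .x, .B r i => if i + 1 = 0 then of .x ^ ma Y r.val else 1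
  | .x, _ => 1
  | .D, .A r => of (.R r)
  | .D, _ => 1
  | .y, _ => of .y
  | .R r, q => if q = .B r r then of .y ^ mk Y r.val * of .D * of .x ^ me Y r.val else 1

/-- the automaton -/
def Au : Aut (Lt Y.m) (St Y.m) := ⟨δ Y, o Y⟩

variable {Y}

theorem act_io_of (l : Lt Y.m) (q : St Y.m) : (Au Y).act (io (of l)) q = δ Y (some l) q := by
  rw [io_of, Aut.act_of]; rfl

theorem cc_io_of (l : Lt Y.m) (q : St Y.m) : (Au Y).cc (io (of l)) q = io (o Y l q) := by
  rw [io_of, Aut.cc_of]; rfl

theorem act_mk0 (q : St Y.m) : (Au Y).act mk0 q = δ Y none q := by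
  rw [mk0, Aut.act_of]; rfl

theorem xA (N : ℕ) : (Au Y).act (io (of .x ^ N)) (.A 0) = .A N ∧
    (Au Y).cc (io (of .x ^ N)) (.A 0) = io (of .x ^ N) := by
  induction N with
  | zero => simp
  | succ N ih =>
    rw [pow_succ', map_mul, Aut.act_mul, Aut.cc_mul, ih.1, ih.2, act_io_of, cc_io_of]
    refine ⟨?_, rfl⟩
    show St.A ((N : ZMod Y.m) + 1) = _
    push_cast
    rfl

theorem xB (r : ZMod Y.m) (N : ℕ) : (Au Y).act (io (of .x ^ N)) (.B r 0) = .B r N ∧
    (Au Y).cc (io (of .x ^ N)) (.B r 0) = io (of .x ^ (ma Y r.val * (N / Y.m))) := by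
  induction N with
  | zero => simp
  | succ N ih =>
    rw [pow_succ', map_mul, Aut.act_mul, Aut.cc_mul, ih.1, ih.2, act_io_of, cc_io_of]
    refine ⟨?_, ?_⟩
    · show St.B r ((N : ZMod Y.m) + 1) = _
      push_cast
      rfl
    · show io (if (N : ZMod Y.m) + 1 = 0 then of (Lt.x : Lt Y.m) ^ ma Y r.val else 1) * _ = _
      rw [← map_mul, Nat.succ_div]
      have h : (N : ZMod Y.m) + 1 = 0 ↔ Y.m ∣ N + 1 := by
        rw [← ZMod.natCast_eq_zero_iff]
        push_cast
        rfl
      by_cases hd : Y.m ∣ N + 1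
      · rw [if_pos (h.2 hd), if_pos hd, ← pow_add]
        congr 2
        ring
      · rw [if_neg (fun h' => hd (h.1 h')), if_neg hd, one_mul, add_zero]

theorem yy (q : St Y.m) (t : ℕ) : (Au Y).act (io (of .y ^ t)) q = q ∧
    (Au Y).cc (io (of .y ^ t)) q = io (of .y ^ t) := by
  induction t with
  | zero => simp
  | succ N ih =>
    rw [pow_succ', map_mul, Aut.act_mul, Aut.cc_mul, ih.1, ih.2, act_io_of, cc_io_of]
    exact ⟨rfl, rfl⟩

/-- contents at even times -/
def c0 (c : ℕ × ℕ) : FreeGroup (Lt Y.m) := of .y ^ c.1 * of .D * of .x ^ c.2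

/-- contents at odd times -/
def c1 (c : ℕ × ℕ) : FreeGroup (Lt Y.m) := of .y ^ c.1 * of (.R (c.2 : ZMod Y.m)) * of .x ^ c.2

/-- one step of the machine -/
def st (Y : Sys) (c : ℕ × ℕ) : ℕ × ℕ := (c.1 + mk Y c.2, ma Y c.2 * (c.2 / Y.m) + me Y c.2)

theorem step0 (c : ℕ × ℕ) : (Au Y).act (mk0 * io (c0 c)) (.A 0) = .B c.2 0 ∧
    (Au Y).cc (io (c0 c)) (.A 0) = io (c1 (Y := Y) c) := by
  unfold c0 c1
  have h1 : (Au Y).act (io (of .D)) (.A (c.2 : ZMod Y.m)) = .A' c.2 := by
    rw [act_io_of]; rfl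
  have h2 : (Au Y).cc (io (of .D)) (.A (c.2 : ZMod Y.m)) = io (of (.R (c.2 : ZMod Y.m))) := by
    rw [cc_io_of]; rfl
  constructor
  · rw [Aut.act_mul, map_mul, map_mul, Aut.act_mul, Aut.act_mul, (xA c.2).1, h1, (yy _ _).1, act_mk0]
    rfl
  · rw [map_mul, map_mul, Aut.cc_mul, Aut.cc_mul, (xA c.2).1, (xA c.2).2, h1, h2, (yy _ _).2,
      map_mul, map_mul]

theorem val_cast (hm : 0 < Y.m) (N : ℕ) : ma Y (N : ZMod Y.m).val = ma Y N ∧
    me Y (N : ZMod Y.m).val = me Y N ∧ mk Y (N : ZMod Y.m).val = mk Y N := by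
  have : NeZero Y.m := ⟨hm.ne'⟩
  unfold ma me mk
  rw [ZMod.val_natCast, Nat.mod_mod]
  exact ⟨rfl, rfl, rfl⟩

theorem step1 (hm : 0 < Y.m) (c : ℕ × ℕ) :
    (Au Y).act (mk0 * io (c1 (Y := Y) c)) (.B c.2 0) = .A 0 ∧
    (Au Y).cc (io (c1 (Y := Y) c)) (.B c.2 0) = io (c0 (st Y c)) := by
  obtain ⟨e1, e2, e3⟩ := val_cast hm c.2
  unfold c0 c1
  have h1 : (Au Y).act (io (of (.R (c.2 : ZMod Y.m)))) (.B (c.2 : ZMod Y.m) c.2) = .G := by
    rw [act_io_of]
    exact Equiv.swap_apply_left _ _
  have h2 : (Au Y).cc (io (of (.R (c.2 : ZMod Y.m)))) (.B (c.2 : ZMod Y.m) c.2) =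
      io (of .y ^ mk Y c.2 * of .D * of .x ^ me Y c.2) := by
    rw [cc_io_of]
    simp only [o, if_true]
    rw [e2, e3]
  constructor
  · rw [Aut.act_mul, map_mul, map_mul, Aut.act_mul, Aut.act_mul, (xB _ c.2).1, h1, (yy _ _).1,
      act_mk0]
    rfl
  · rw [map_mul, map_mul, Aut.cc_mul, Aut.cc_mul, (xB _ c.2).1, (xB _ c.2).2, h1, h2, (yy _ _).2,
      e1, ← map_mul, ← map_mul]
    congr 1
    unfold st
    simp only [pow_add, mul_assoc]
    congr 3
    rw [← pow_add, ← pow_add, Nat.add_comm]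

/-- the states of the trajectory -/
def qs (Y : Sys) (N : ℕ) (n : ℕ) : St Y.m :=
  if n % 2 = 0 then .A 0 else .B (((st Y)^[n / 2] (0, N)).2 : ZMod Y.m) 0

/-- the contents of the trajectory -/
def us (Y : Sys) (N : ℕ) (n : ℕ) : FreeGroup (Lt Y.m) :=
  if n % 2 = 0 then c0 ((st Y)^[n / 2] (0, N)) else c1 ((st Y)^[n / 2] (0, N))

theorem traj (hm : 0 < Y.m) (N : ℕ) : (Au Y).Traj (qs Y N) (us Y N) := by
  have key : ∀ n, (Au Y).act (mk0 * io (us Y N n)) (qs Y N n) = qs Y N (n + 1) ∧
      (Au Y).cc (io (us Y N n)) (qs Y N n) = io (us Y N (n + 1)) := by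
    intro n
    rcases Nat.even_or_odd' n with ⟨k, hk | hk⟩
    · have h1 : n % 2 = 0 := by omega
      have h2 : (n + 1) % 2 ≠ 0 := by omega
      have h3 : n / 2 = k := by omega
      have h4 : (n + 1) / 2 = k := by omega
      unfold qs us
      rw [if_pos h1, if_pos h1, if_neg h2, if_neg h2, h3, h4]
      exact step0 _
    · have h1 : n % 2 ≠ 0 := by omega
      have h2 : (n + 1) % 2 = 0 := by omega
      have h3 : n / 2 = k := by omega
      have h4 : (n + 1) / 2 = k + 1 := by omega
      unfold qs us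
      rw [if_neg h1, if_neg h1, if_pos h2, if_pos h2, h3, h4, Function.iterate_succ_apply']
      exact step1 hm _
  exact ⟨fun t => (key t).1, fun t => (key t).2⟩

theorem halts_fix {N : ℕ} (h : Y.Halts N) :
    ∀ t, ∃ k, st Y ((st Y)^[k] (t, N)) = (st Y)^[k] (t, N) := by
  induction h with
  | halt N h =>
    intro t
    refine ⟨0, ?_⟩
    simp only [Function.iterate_zero, id_eq, st, mk, ma, me, h, if_true, add_zero]
    rw [Nat.div_add_mod]
  | step N h _ ih =>
    intro t
    obtain ⟨k, hk⟩ := ih (t + 1)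
    refine ⟨k + 1, ?_⟩
    have h1 : st Y (t, N) = (t + 1, Y.next N) := by
      simp [st, mk, ma, me, h, Sys.next]
    rw [Function.iterate_succ_apply, h1]
    exact hk

theorem not_halts {N : ℕ} (h : ¬ Y.Halts N) (k : ℕ) :
    (st Y)^[k] (0, N) = (k, Y.next^[k] N) := by
  induction k with
  | zero => rfl
  | succ k ih =>
    rw [Function.iterate_succ_apply', ih, Function.iterate_succ_apply']
    have h1 : Y.H ((Y.next^[k] N) % Y.m) = false := by
      by_contra h2
      exact h ((Pool.Agent.Helper707.Num.halts_iff_iter Y N).2 ⟨k, by simpa using h2⟩)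
    simp [st, mk, ma, me, h1, Sys.next]

/-- the exponent of `y` -/
def ey (m : ℕ) : FreeGroup (Lt m) →* Multiplicative ℤ :=
  FreeGroup.lift fun l => match l with
    | .y => Multiplicative.ofAdd 1
    | _ => 1

/-- the exponent of `D` -/
def eD (m : ℕ) : FreeGroup (Lt m) →* Multiplicative ℤ :=
  FreeGroup.lift fun l => match l with
    | .D => Multiplicative.ofAdd 1
    | _ => 1

theorem ey_c0 (c : ℕ × ℕ) : ey Y.m (c0 c) = Multiplicative.ofAdd (c.1 : ℤ) ∧
    eD Y.m (c0 c) = Multiplicative.ofAdd 1 := by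
  constructor
  · simp only [c0, ey, map_mul, map_pow, lift_apply_of, one_pow, mul_one, ← ofAdd_nsmul]
    simp
  · simp [c0, eD]

theorem ey_c1 (c : ℕ × ℕ) : ey Y.m (c1 c) = Multiplicative.ofAdd (c.1 : ℤ) ∧
    eD Y.m (c1 c) = 1 := by
  constructor
  · simp only [c1, ey, map_mul, map_pow, lift_apply_of, one_pow, mul_one, ← ofAdd_nsmul]
    simp
  · simp [c1, eD]

theorem us_injective {N : ℕ} (h : ¬ Y.Halts N) : Function.Injective (us Y N) := by
  intro a b hab
  have ne : (Multiplicative.ofAdd (1 : ℤ)) ≠ 1 := by decide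
  have hy : ∀ n, ey Y.m (us Y N n) = Multiplicative.ofAdd ((n / 2 : ℕ) : ℤ) := by
    intro n
    unfold us
    rw [not_halts h]
    split_ifs
    · exact (ey_c0 _).1
    · exact (ey_c1 _).1
  have hD : ∀ n, eD Y.m (us Y N n) = if n % 2 = 0 then Multiplicative.ofAdd (1 : ℤ) else 1 := by
    intro n
    unfold us
    split_ifs
    · exact (ey_c0 _).2
    · exact (ey_c1 _).2
  have h1 : a / 2 = b / 2 := by
    have := congrArg (ey Y.m) hab
    rw [hy, hy] at this
    have h2 := Multiplicative.ofAdd.injective this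
    exact_mod_cast h2
  have h2 : a % 2 = 0 ↔ b % 2 = 0 := by
    have := congrArg (eD Y.m) hab
    rw [hD, hD] at this
    by_cases ha : a % 2 = 0 <;> by_cases hb : b % 2 = 0
    · simp [ha, hb]
    · rw [if_pos ha, if_neg hb] at this
      exact absurd this ne
    · rw [if_neg ha, if_pos hb] at this
      exact absurd this.symm ne
    · simp [ha, hb]
  omega

/-- The equation has a nontrivial solution exactly when the system halts. -/
theorem main (hm : 0 < Y.m) (N : ℕ) : Y.Halts N ↔
    ∃ h : FreeGroup (Option (Lt Y.m)), h ≠ 1 ∧ (Au Y).act h (.A 0) = .A 0 ∧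
      (Au Y).cc h (.A 0) = mk0 * io (of .D * of .x ^ N) * h * (mk0 * io (of .D * of .x ^ N))⁻¹ := by
  have T := traj hm N
  have q0 : qs Y N 0 = .A 0 := rfl
  have u0 : us Y N 0 = of .D * of .x ^ N := by
    simp [us, c0]
  constructor
  · intro h
    obtain ⟨k, hk⟩ := halts_fix h 0
    have h1 : qs Y N (2 * k) = qs Y N (2 * (k + 1)) := by
      unfold qs
      rw [if_pos (by omega), if_pos (by omega)]
    have h2 : us Y N (2 * k) = us Y N (2 * (k + 1)) := by
      unfold us
      rw [if_pos (by omega), if_pos (by omega)]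
      have e1 : 2 * k / 2 = k := by omega
      have e2 : 2 * (k + 1) / 2 = k + 1 := by omega
      rw [e1, e2, Function.iterate_succ_apply', hk]
    obtain ⟨g, hg⟩ := T.exists_solution (by omega : 2 * k < 2 * (k + 1)) h1 h2
    rw [q0, u0] at hg
    exact ⟨g, hg⟩
  · rintro ⟨g, hg1, hg2, hg3⟩
    by_contra h
    refine hg1 (T.eq_one (us_injective h) g ?_ ?_)
    · rw [q0]; exact hg2
    · rw [q0, u0]; exact hg3

end Mach

end Pool.Agent.Y555.PCP
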