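import Mathlib
import Pool.Agent.Y555.PCP.Free
import Pool.Agent.Y555.PCP.Machine

/-!
# The equation `β z = (x ^ N)⁻¹ * γ z * x ^ N` encodes halting
-/

set_option autoImplicit false

namespace Pool.Agent.Y555.PCP

open FreeGroup hiding map_mul map_one map_inv map_pure norm
open SemidirectProduct
open Pool.Agent.Helper707.Rel (Sys)

/-- The equation `β z = (x ^ N)⁻¹ * γ z * x ^ N` has a nontrivial solution iff `Y` halts from
`N`. -/
def Enc (Y : Sys) {X Λ : Type} (β γ : FreeGroup X →* FreeGroup Λ) (x : FreeGroup Λ) : Prop :=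
  ∀ N, Y.Halts N ↔ ∃ z, z ≠ 1 ∧ β z = (x ^ N)⁻¹ * γ z * x ^ N

theorem exists_enc (Y : Sys) (hm : 0 < Y.m) : ∃ (n : ℕ) (Λ : Type) (_ : Finite Λ)
    (β γ : FreeGroup (Fin n) →* FreeGroup Λ) (x : FreeGroup Λ),
    Function.Injective β ∧ Enc Y β γ x := by
  have : NeZero Y.m := ⟨hm.ne'⟩
  let A := Mach.Au Y
  let q0 : St Y.m := .A 0
  let H : Subgroup (FreeGroup (Option (Lt Y.m))) :=
    (MulAction.stabilizer (Equiv.Perm (St Y.m)) q0).comap A.σ
  have hH : ∀ h, h ∈ H ↔ A.act h q0 = q0 := by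
    intro h
    rw [← A.σ_apply]
    exact Iff.rfl
  have : H.FiniteIndex := by
    have : A.σ.ker ≤ H := by
      intro g hg
      rw [hH, ← A.σ_apply, MonoidHom.mem_ker.1 hg]
      rfl
    exact Subgroup.finiteIndex_of_le this
  obtain ⟨n, β, hβ, hr⟩ := exists_basis H
  have hact : ∀ z, A.act (β z) q0 = q0 := by
    intro z
    rw [← hH, ← hr]
    exact ⟨z, rfl⟩
  let γ0 : FreeGroup (Fin n) →* FreeGroup (Option (Lt Y.m)) :=
    MonoidHom.mk' (fun z => A.cc (β z) q0) (by
      intro a b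
      rw [map_mul, Aut.cc_mul, hact])
  let d : FreeGroup (Option (Lt Y.m)) := mk0 * io (of .D)
  refine ⟨n, Option (Lt Y.m), inferInstance, β, (MulAut.conj d⁻¹).toMonoidHom.comp γ0,
    io (of .x), hβ, fun N => ?_⟩
  have hγ : ∀ z, ((MulAut.conj d⁻¹).toMonoidHom.comp γ0) z = d⁻¹ * A.cc (β z) q0 * d := by
    intro z
    show d⁻¹ * A.cc (β z) q0 * d⁻¹⁻¹ = _
    rw [inv_inv]
  rw [Mach.main hm N]
  constructor
  · rintro ⟨h, h1, h2, h3⟩
    obtain ⟨z, rfl⟩ : h ∈ β.range := by rw [hr, hH]; exact h2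
    refine ⟨z, fun hz => h1 (by rw [hz, map_one]), ?_⟩
    rw [hγ]
    change A.cc (β z) q0 = _ at h3
    rw [h3]
    simp [d, mul_assoc]
  · rintro ⟨z, h1, h2⟩
    refine ⟨β z, fun h => h1 (hβ (by rw [h, map_one])), hact z, ?_⟩
    rw [hγ] at h2
    conv_rhs => rw [h2]
    change A.cc (β z) q0 = _
    simp [d, mul_assoc]

section Succ

variable {X Λ : Type} (β γ : FreeGroup X →* FreeGroup Λ)

/-- killing the marked letter -/
def rho {Γ : Type} : FreeGroup (Option Γ) →* FreeGroup Γ :=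
  FreeGroup.lift fun o => match o with
    | none => 1
    | some a => of a

@[simp] theorem rho_io {Γ : Type} (g : FreeGroup Γ) : rho (io g) = g := by
  have : (rho.comp io : FreeGroup Γ →* _) = MonoidHom.id _ := by
    ext a : 1
    simp [rho]
  exact DFunLike.congr_fun this g

/-- the extension mapping the new generator to the marked letter -/
def ext1 : FreeGroup (Option X) →* FreeGroup (Option Λ) :=
  FreeGroup.lift fun o => match o with
    | none => mk0
    | some a => io (β (of a))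

/-- the extension killing the new generator -/
def ext0 : FreeGroup (Option X) →* FreeGroup (Option Λ) := io.comp (γ.comp rho)

theorem ext1_io (z : FreeGroup X) : ext1 β (io z) = io (β z) := by
  have : ((ext1 β).comp io) = (io.comp β) := by
    ext a : 1
    simp [ext1]
  exact DFunLike.congr_fun this z

theorem ext1_mk0 : ext1 β mk0 = mk0 := by
  simp [ext1, mk0]

theorem rho_ext1 (z : FreeGroup (Option X)) : rho (ext1 β z) = β (rho z) := by
  have : (rho.comp (ext1 β)) = (β.comp rho) := by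
    ext a : 1
    cases a with
    | none => simp [ext1, rho, mk0]
    | some a =>
      simp only [MonoidHom.comp_apply, ext1, lift_apply_of, rho_io]
      simp [rho]
  exact DFunLike.congr_fun this z

/-- the map on the semidirect products -/
def Smap : S X →* S Λ :=
  SemidirectProduct.map (FreeGroup.map β) β (by
    intro g
    ext u : 1
    simp)

theorem toS_ext1 (z : FreeGroup (Option X)) : toS (ext1 β z) = Smap β (toS z) := by
  have : (toS.comp (ext1 β)) = ((Smap β).comp toS) := by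
    ext a : 1
    cases a with
    | none =>
      have h : (of none : FreeGroup (Option X)) = mk0 := rfl
      simp only [MonoidHom.comp_apply, h, ext1_mk0, toS_mk0, Smap, map_inl,
        FreeGroup.map.of, map_one]
    | some a =>
      have h : (of (some a) : FreeGroup (Option X)) = io (of a) := by simp
      simp only [MonoidHom.comp_apply, h, ext1_io, toS_io, Smap, map_inr]
  exact DFunLike.congr_fun this z

theorem ext1_injective (hβ : Function.Injective β) : Function.Injective (ext1 β) := by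
  intro a b h
  have h1 : Smap β (toS a) = Smap β (toS b) := by rw [← toS_ext1, ← toS_ext1, h]
  apply toS_injective
  apply SemidirectProduct.ext
  · exact FreeGroup.map_injective hβ (congrArg SemidirectProduct.left h1)
  · exact hβ (congrArg SemidirectProduct.right h1)

theorem Enc.ext {Y : Sys} {β γ : FreeGroup X →* FreeGroup Λ} {x : FreeGroup Λ}
    (hβ : Function.Injective β) (h : Enc Y β γ x) :
    Enc Y (ext1 β) (ext0 γ) (io x) := by
  intro N
  rw [h N]
  constructor
  · rintro ⟨z, h1, h2⟩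
    refine ⟨io z, fun hz => h1 (io_injective (by rw [hz, map_one])), ?_⟩
    rw [ext1_io, h2, ext0, MonoidHom.comp_apply, MonoidHom.comp_apply, rho_io, map_mul, map_mul,
      map_inv, map_pow]
  · rintro ⟨z, h1, h2⟩
    by_cases hz : rho z = 1
    · exfalso
      rw [ext0, MonoidHom.comp_apply, MonoidHom.comp_apply, hz, map_one, map_one, mul_one,
        inv_mul_cancel] at h2
      exact h1 (ext1_injective β hβ (by rw [h2, map_one]))
    · refine ⟨rho z, hz, ?_⟩
      rw [← rho_ext1, h2, ext0, MonoidHom.comp_apply, MonoidHom.comp_apply, map_mul, map_mul,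
        map_inv, map_pow, rho_io, rho_io]

end Succ

theorem Enc.comp_equiv {Y : Sys} {X X' Λ : Type} {β γ : FreeGroup X →* FreeGroup Λ}
    {x : FreeGroup Λ} (h : Enc Y β γ x) (e : FreeGroup X' ≃* FreeGroup X) :
    Enc Y (β.comp e.toMonoidHom) (γ.comp e.toMonoidHom) x := by
  intro N
  rw [h N]
  constructor
  · rintro ⟨z, h1, h2⟩
    refine ⟨e.symm z, fun hz => h1 ?_, ?_⟩
    · rw [← e.apply_symm_apply z, hz, map_one]
    · show β (e (e.symm z)) = (x ^ N)⁻¹ * γ (e (e.symm z)) * x ^ N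
      rw [e.apply_symm_apply]
      exact h2
  · rintro ⟨z, h1, h2⟩
    exact ⟨e z, fun hz => h1 (e.injective (by rw [hz, map_one])), h2⟩

theorem Enc.comp_inj {Y : Sys} {X Λ Λ' : Type} {β γ : FreeGroup X →* FreeGroup Λ}
    {x : FreeGroup Λ} (h : Enc Y β γ x) (ι : FreeGroup Λ →* FreeGroup Λ')
    (hι : Function.Injective ι) :
    Enc Y (ι.comp β) (ι.comp γ) (ι x) := by
  intro N
  rw [h N]
  constructor
  · rintro ⟨z, h1, h2⟩
    refine ⟨z, h1, ?_⟩
    rw [MonoidHom.comp_apply, h2]
    simp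
  · rintro ⟨z, h1, h2⟩
    refine ⟨z, h1, hι ?_⟩
    rw [MonoidHom.comp_apply] at h2
    rw [h2]
    simp

theorem exists_enc_all (Y : Sys) (hm : 0 < Y.m) : ∃ n0 : ℕ, ∀ k : ℕ, ∃ (Λ : Type) (_ : Finite Λ)
    (β γ : FreeGroup (Fin (n0 + k)) →* FreeGroup Λ) (x : FreeGroup Λ),
    Function.Injective β ∧ Enc Y β γ x := by
  obtain ⟨n0, hn⟩ := exists_enc Y hm
  refine ⟨n0, fun k => ?_⟩
  induction k with
  | zero => exact hn
  | succ k ih =>
    obtain ⟨Λ, hΛ, β, γ, x, hβ, h⟩ := ih
    let e : FreeGroup (Fin (n0 + (k + 1))) ≃* FreeGroup (Option (Fin (n0 + k))) :=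
      freeGroupCongr (finSuccEquiv (n0 + k))
    exact ⟨Option Λ, inferInstance, (ext1 β).comp e.toMonoidHom, (ext0 γ).comp e.toMonoidHom,
      io x, (ext1_injective β hβ).comp e.injective, (h.ext hβ).comp_equiv e⟩

/-- For all `n` from some point on and all `m ≥ 2` there is an encoding with homomorphisms
`FreeGroup (Fin n) →* FreeGroup (Fin m)`. -/
theorem exists_enc_fin (Y : Sys) (hm : 0 < Y.m) : ∃ n0 : ℕ, ∀ n, n0 ≤ n → ∀ m, 2 ≤ m →
    ∃ (β γ : FreeGroup (Fin n) →* FreeGroup (Fin m)) (x : FreeGroup (Fin m)),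
      Function.Injective β ∧ Enc Y β γ x := by
  obtain ⟨n0, hn⟩ := exists_enc_all Y hm
  refine ⟨n0, fun n h m hm2 => ?_⟩
  obtain ⟨k, rfl⟩ := Nat.exists_eq_add_of_le h
  obtain ⟨Λ, hΛ, β, γ, x, hβ, h⟩ := hn k
  obtain ⟨ι, hι⟩ := exists_embedding Λ m hm2
  exact ⟨ι.comp β, ι.comp γ, ι x, hι.comp hβ, h.comp_inj ι hι⟩

end Pool.Agent.Y555.PCP
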