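import Mathlib
import Pool.Agent.Y555.PCP.Inst
import Pool.Agent.Y555.PCP.Defs

/-!
# Undecidability of triviality of equalisers for free groups of fixed ranks
-/

set_option autoImplicit false

namespace Pool.Agent.Y555.PCP

open Pool.Agent.Helper707.Rel (Sys)

theorem primrec_reduce {m : ℕ} :
    Primrec (FreeGroup.reduce : List (Fin m × Bool) → List (Fin m × Bool)) := by
  have hstep : Primrec₂ (fun (_ : List (Fin m × Bool))
      (p : (Fin m × Bool) × List (Fin m × Bool)) =>
      (List.casesOn p.2 [p.1] fun hd tl =>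
        if p.1.1 = hd.1 ∧ p.1.2 = !hd.2 then tl else p.1 :: hd :: tl :
          List (Fin m × Bool))) := by
    unfold Primrec₂
    refine Primrec.list_casesOn (f := fun q : List (Fin m × Bool) ×
      ((Fin m × Bool) × List (Fin m × Bool)) => q.2.2) (Primrec.snd.comp Primrec.snd)
      (g := fun q => [q.2.1])
      (Primrec.list_cons.comp (Primrec.fst.comp Primrec.snd) (Primrec.const []))
      (h := fun q r => if q.2.1.1 = r.1.1 ∧ q.2.1.2 = !r.1.2 then r.2 else q.2.1 :: r.1 :: r.2) ?_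
    unfold Primrec₂
    have a1 : Primrec (fun q : (List (Fin m × Bool) × ((Fin m × Bool) × List (Fin m × Bool))) ×
        ((Fin m × Bool) × List (Fin m × Bool)) => q.1.2.1) :=
      Primrec.fst.comp (Primrec.snd.comp Primrec.fst)
    have a2 : Primrec (fun q : (List (Fin m × Bool) × ((Fin m × Bool) × List (Fin m × Bool))) ×
        ((Fin m × Bool) × List (Fin m × Bool)) => q.2.1) := Primrec.fst.comp Primrec.snd
    have a3 : Primrec (fun q : (List (Fin m × Bool) × ((Fin m × Bool) × List (Fin m × Bool))) ×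
        ((Fin m × Bool) × List (Fin m × Bool)) => q.2.2) := Primrec.snd.comp Primrec.snd
    refine Primrec.ite ?_ a3 (Primrec.list_cons.comp a1 (Primrec.list_cons.comp a2 a3))
    refine PrimrecPred.and ?_ ?_
    · exact Primrec.eq.comp (Primrec.fst.comp a1) (Primrec.fst.comp a2)
    · exact Primrec.eq.comp (Primrec.snd.comp a1) (Primrec.not.comp (Primrec.snd.comp a2))
  refine (Primrec.list_foldr Primrec.id (Primrec.const []) hstep).of_eq fun L => ?_
  induction L with
  | nil => rfl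
  | cons a L ih =>
    simp only [id_eq, List.foldr_cons] at ih ⊢
    rw [ih, FreeGroup.reduce.cons]

/-- `N` copies of the word `L` -/
def rp {m : ℕ} (L : List (Fin m × Bool)) (N : ℕ) : List (Fin m × Bool) :=
  Nat.rec [] (fun _ ih => L ++ ih) N

theorem mk_rp {m : ℕ} (L : List (Fin m × Bool)) (N : ℕ) :
    FreeGroup.mk (rp L N) = FreeGroup.mk L ^ N := by
  induction N with
  | zero => rfl
  | succ N ih =>
    show FreeGroup.mk (L ++ rp L N) = _
    rw [← FreeGroup.mul_mk, ih, pow_succ']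

theorem primrec_rp {m : ℕ} (L : List (Fin m × Bool)) : Primrec (rp L) := by
  refine Primrec.nat_rec₁ (f := fun _ ih => L ++ ih) [] ?_
  exact Primrec.list_append.comp (Primrec.const L) Primrec.snd

theorem primrec_pow (S p : ℕ) : Primrec (fun k => S * p ^ k) := by
  have h : Primrec (fun k => p ^ k) := by
    refine (Primrec.nat_rec₁ (f := fun _ ih => ih * p) 1
      (Primrec.nat_mul.comp Primrec.snd (Primrec.const p))).of_eq fun k => ?_
    induction k with
    | zero => rfl
    | succ k ih => rw [pow_succ, ← ih]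
  exact Primrec.nat_mul.comp (Primrec.const S) h

/-- the instance attached to a number -/
def inst {n m : ℕ} (β γ : FreeGroup (Fin n) →* FreeGroup (Fin m)) (x : FreeGroup (Fin m)) (N : ℕ) :
    (Fin n → List (Fin m × Bool)) × (Fin n → List (Fin m × Bool)) :=
  (fun i => (β (FreeGroup.of i)).toWord, fun i => FreeGroup.reduce
    (rp (x⁻¹).toWord N ++ ((γ (FreeGroup.of i)).toWord ++ rp x.toWord N)))

theorem primrec_inst {n m : ℕ} (β γ : FreeGroup (Fin n) →* FreeGroup (Fin m))
    (x : FreeGroup (Fin m)) (S p : ℕ) : Primrec (fun k => inst β γ x (S * p ^ k)) := by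
  refine Primrec.pair (Primrec.const _) ?_
  rw [Primrec.fin_curry]
  have h1 : Primrec (fun q : ℕ × Fin n => S * p ^ q.1) := (primrec_pow S p).comp Primrec.fst
  refine primrec_reduce.comp (Primrec.list_append.comp ((primrec_rp _).comp h1)
    (Primrec.list_append.comp ?_ ((primrec_rp _).comp h1)))
  exact (Primrec.dom_finite fun i : Fin n => (γ (FreeGroup.of i)).toWord).comp Primrec.snd

theorem isReduced_inst {n m : ℕ} (β γ : FreeGroup (Fin n) →* FreeGroup (Fin m))
    (x : FreeGroup (Fin m)) (N : ℕ) :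
    (∀ i, FreeGroup.IsReduced ((inst β γ x N).1 i)) ∧
      ∀ i, FreeGroup.IsReduced ((inst β γ x N).2 i) := by
  constructor
  · intro i
    exact FreeGroup.isReduced_toWord
  · intro i
    show FreeGroup.IsReduced (FreeGroup.reduce _)
    rw [← FreeGroup.toWord_mk]
    exact FreeGroup.isReduced_toWord

theorem toHom_inst {n m : ℕ} (β γ : FreeGroup (Fin n) →* FreeGroup (Fin m))
    (x : FreeGroup (Fin m)) (N : ℕ) (z : FreeGroup (Fin n)) :
    toHom (inst β γ x N).1 z = β z ∧ toHom (inst β γ x N).2 z = (x ^ N)⁻¹ * γ z * x ^ N := by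
  constructor
  · have : toHom (inst β γ x N).1 = β := by
      ext i : 1
      simp [toHom, inst, FreeGroup.mk_toWord]
    rw [this]
  · have : toHom (inst β γ x N).2 = (MulAut.conj (x ^ N)⁻¹).toMonoidHom.comp γ := by
      ext i : 1
      show toHom (inst β γ x N).2 (FreeGroup.of i) = (x ^ N)⁻¹ * γ (FreeGroup.of i) * (x ^ N)⁻¹⁻¹
      rw [toHom, FreeGroup.lift_apply_of, inv_inv]
      show FreeGroup.mk (FreeGroup.reduce _) = _
      rw [FreeGroup.reduce.self, ← FreeGroup.mul_mk, ← FreeGroup.mul_mk, mk_rp, mk_rp,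
        FreeGroup.mk_toWord, FreeGroup.mk_toWord, FreeGroup.mk_toWord, inv_pow, mul_assoc]
    rw [this]
    show (x ^ N)⁻¹ * γ z * (x ^ N)⁻¹⁻¹ = _
    rw [inv_inv]

theorem HasAlgorithm.for {n m : ℕ} (h : HasAlgorithm n m) (u : Fin n → List (Fin m × Bool))
    (hu : ∀ i, FreeGroup.IsReduced (u i)) : HasAlgorithmFor u := by
  obtain ⟨f, hf, hfs⟩ := h
  exact ⟨fun v => f (u, v), hf.comp (Computable.pair (Computable.const u) Computable.id),
    fun v hv => hfs u v hu hv⟩

/-- For all large `n` and all `m ≥ 2` there is no algorithm which decides whether two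
homomorphisms `F_n → F_m` agree on a nontrivial element. -/
theorem undecidable : ∃ n₀ : ℕ, ∀ n, n₀ ≤ n → ∀ m, 2 ≤ m → ∃ u : Fin n → List (Fin m × Bool),
    (∀ i, FreeGroup.IsReduced (u i)) ∧ Function.Injective (toHom u) ∧ ¬ HasAlgorithmFor u := by
  obtain ⟨Y, S, p, hm, hY⟩ := Pool.Agent.Helper707.Num.exists_undecidable_sys
  obtain ⟨n0, hn⟩ := exists_enc_fin Y hm
  refine ⟨n0, fun n h m hm2 => ?_⟩
  obtain ⟨β, γ, x, hβ, henc⟩ := hn n h m hm2
  have hu : ∀ N, (inst β γ x N).1 = fun i => (β (FreeGroup.of i)).toWord := fun _ => rfl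
  have hβ2 : toHom (fun i => (β (FreeGroup.of i)).toWord) = β := by
    ext i : 1
    simp [toHom, FreeGroup.mk_toWord]
  refine ⟨fun i => (β (FreeGroup.of i)).toWord, (isReduced_inst β γ x 0).1, ?_, ?_⟩
  · rw [hβ2]
    exact hβ
  rintro ⟨f, hf, hfs⟩
  apply hY
  have key : ∀ k, ∃ b, b ∈ f (inst β γ x (S * p ^ k)).2 ∧ (b = true ↔ Y.Halts (S * p ^ k)) := by
    intro k
    obtain ⟨-, h2⟩ := isReduced_inst β γ x (S * p ^ k)
    obtain ⟨b, hb, hb2⟩ := hfs _ h2
    refine ⟨b, hb, ?_⟩
    rw [hb2, henc]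
    simp only [hβ2, (toHom_inst β γ x (S * p ^ k) _).2]
  choose F hF1 hF2 using key
  rw [ComputablePred.computable_iff]
  refine ⟨F, ?_, ?_⟩
  · have h3 : Partrec (fun k => f (inst β γ x (S * p ^ k)).2) :=
      hf.comp (Primrec.snd.comp (primrec_inst β γ x S p)).to_comp
    exact h3.of_eq fun k => Part.eq_some_iff.2 (hF1 k)
  · funext k
    exact propext (hF2 k).symm

theorem main_result : ∃ n₀ : ℕ, 1 ≤ n₀ ∧ ∀ n, n₀ ≤ n → ∀ m, 2 ≤ m →
    ¬ HasAlgorithm n m ∧ ∃ u : Fin n → List (Fin m × Bool),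
      (∀ i, FreeGroup.IsReduced (u i)) ∧ Function.Injective (toHom u) ∧ ¬ HasAlgorithmFor u := by
  obtain ⟨n0, h⟩ := undecidable
  refine ⟨n0 + 1, by omega, fun n hn m hm => ?_⟩
  obtain ⟨u, h1, h2, h3⟩ := h n (by omega) m hm
  exact ⟨fun hd => h3 (hd.for u h1), u, h1, h2, h3⟩

/-- For all large `n` and all `m ≥ 2` there is no algorithm which decides whether two
homomorphisms `F_n → F_m` agree on a nontrivial element. -/
theorem main_result' : ∃ n₀ : ℕ, 1 ≤ n₀ ∧ ∀ n, n₀ ≤ n → ∀ m, 2 ≤ m → ¬ HasAlgorithm n m := by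
  obtain ⟨n0, h0, h⟩ := main_result
  exact ⟨n0, h0, fun n hn m hm => (h n hn m hm).1⟩

end Pool.Agent.Y555.PCP
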